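import Pool.Agent.ARC.StmtsU

/-!
ARC, row EIG: equal eigenspaces.
-/

set_option autoImplicit false

namespace Pool.Agent.ARC.H21

open scoped BigOperators DirectSum

theorem eig : EigStmt := by
  intro W _ _ _ U A n ζ hn hζ hA hUA κ
  -- `A` maps `E κ` into `E (κ + 1)`
  have hmap : ∀ (c : ℂ) (w : W), w ∈ Module.End.eigenspace U c →
      A w ∈ Module.End.eigenspace U (ζ * c) := by
    intro c w hw
    rw [Module.End.mem_eigenspace_iff] at hw ⊢
    rw [hUA, hw, map_smul, smul_smul]
  have hstep : ∀ c : ℂ, Module.finrank ℂ (Module.End.eigenspace U c) ≤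
      Module.finrank ℂ (Module.End.eigenspace U (ζ * c)) := by
    intro c
    let f : Module.End.eigenspace U c →ₗ[ℂ] Module.End.eigenspace U (ζ * c) :=
      A.restrict (hmap c)
    have hf : Function.Injective f := by
      intro a b hab
      apply Subtype.ext
      apply hA
      exact congrArg Subtype.val hab
    exact LinearMap.finrank_le_finrank_of_injective hf
  have hmono : ∀ (m : ℕ) (c : ℂ), Module.finrank ℂ (Module.End.eigenspace U c) ≤
      Module.finrank ℂ (Module.End.eigenspace U (ζ ^ m * c)) := by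
    intro m
    induction m with
    | zero => intro c; rw [pow_zero, one_mul]
    | succ m ih =>
      intro c
      refine (ih c).trans ?_
      rw [pow_succ', mul_assoc]
      exact hstep _
  have hle : ∀ i : Fin n, Module.finrank ℂ (Module.End.eigenspace U (ζ ^ κ)) ≤
      Module.finrank ℂ (Module.End.eigenspace U (ζ ^ (i : ℕ))) := by
    intro i
    have h1 := hmono ((i : ℕ) + (n - 1) * κ) (ζ ^ κ)
    have h2 : ζ ^ ((i : ℕ) + (n - 1) * κ) * ζ ^ κ = ζ ^ (i : ℕ) := by
      rw [← pow_add]
      have h3 : (i : ℕ) + (n - 1) * κ + κ = i + n * κ := by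
        obtain ⟨n', rfl⟩ := Nat.exists_eq_add_of_le hn
        rw [Nat.add_sub_cancel_left]
        ring
      rw [h3, pow_add, pow_mul, hζ.pow_eq_one, one_pow, mul_one]
    rwa [h2] at h1
  -- independence
  have hinj : Function.Injective fun i : Fin n => ζ ^ (i : ℕ) := by
    intro i j hij
    exact Fin.ext (hζ.pow_inj i.2 j.2 hij)
  have hind : iSupIndep fun i : Fin n => Module.End.eigenspace U (ζ ^ (i : ℕ)) :=
    (Module.End.eigenspaces_iSupIndep U).comp hinj
  have h4 := hind.dfinsupp_lsum_injective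
  have h5 := LinearMap.finrank_le_finrank_of_injective (R := ℂ)
    (f := DFinsupp.lsum ℕ fun i : Fin n => (Module.End.eigenspace U (ζ ^ (i : ℕ))).subtype) h4
  have h6 : Module.finrank ℂ (⨁ i : Fin n, Module.End.eigenspace U (ζ ^ (i : ℕ))) =
      ∑ i : Fin n, Module.finrank ℂ (Module.End.eigenspace U (ζ ^ (i : ℕ))) :=
    Module.finrank_directSum ℂ _
  have h7 : Module.finrank ℂ (Π₀ i : Fin n, Module.End.eigenspace U (ζ ^ (i : ℕ))) =
      ∑ i : Fin n, Module.finrank ℂ (Module.End.eigenspace U (ζ ^ (i : ℕ))) := h6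
  rw [h7] at h5
  refine le_trans ?_ h5
  calc n * Module.finrank ℂ (Module.End.eigenspace U (ζ ^ κ))
      = ∑ _i : Fin n, Module.finrank ℂ (Module.End.eigenspace U (ζ ^ κ)) := by
        rw [Finset.sum_const, Finset.card_univ, Fintype.card_fin, smul_eq_mul]
    _ ≤ _ := Finset.sum_le_sum fun i _ => hle i

end Pool.Agent.ARC.H21
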