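import Pool.Agent.ARC.StmtsP

/-!
ARC, row TGA: the scalars of the data at another embedding.
-/

set_option autoImplicit false

namespace Pool.Agent.ARC.H21

open scoped BigOperators
open Pool.Agent.THS Pool.Agent.ZES
open Pool.Agent.SZG (Ch Idx gam QS WX Wf Xf Mp FF Bx Row lft Zz IM RG RgiStmt)

theorem ch_add_self {g : ℕ} (c d : Ch g) : (c + d) + d = c := by
  funext r
  have h : d r + d r = 0 := CharTwo.add_self_eq_zero (d r)
  change c r + d r + d r = c r
  rw [add_assoc, h, add_zero]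

theorem tga (hT : TouStatement) (hR : RgiStmt) : TgaStmt := by
  intro g K _ E L0 c e s T x' Q x hx ψ τ γ A
  obtain ⟨-, ht2, -, -, -, -⟩ := hT g τ A.sg
  have hψ : Function.Injective ψ := ψ.injective
  -- the scalars `ω`
  have hω : ∀ i, ∃ ω : ℂ, ω ≠ 0 ∧ ∀ ab : Ch g × Ch g,
      ψ (x' i ab) = ω * Vab τ ab.1 ab.2 (fun r => 2 * γ i r) := by
    intro i
    obtain ⟨κ, hκ, hκx⟩ := hx i
    obtain ⟨μ, hμ⟩ := A.pt (i + i)
    have hg : γ (i + i) = fun r => 2 * γ i r := by
      funext r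
      rw [A.add, two_mul]
    have h1 : ∀ ab : Ch g × Ch g, ψ (x' i ab) =
        (ψ κ * μ) * Vab τ ab.1 ab.2 (fun r => 2 * γ i r) := by
      intro ab
      rw [hκx, map_mul, hμ, hg, mul_assoc]
    refine ⟨ψ κ * μ, ?_, h1⟩
    intro h0
    obtain ⟨ab, hab⟩ := Function.ne_iff.1 (Q.x0 i)
    apply hab
    apply hψ
    rw [h1 ab, h0, zero_mul, Pi.zero_apply, map_zero]
  choose ω hω0 hωx using hω
  have hsub : ∀ i j r, γ (i - j) r = γ i r - γ j r := by
    intro i j r
    have h := A.add (i - j) j r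
    rw [sub_add_cancel] at h
    rw [h]
    ring
  -- the main relation
  have hstar : ∀ (i j : Idx g) (c d : Ch g), ψ (T (i + j) c) * ψ (T (i - j) d) =
      ψ s * ω i * ω j * (Thc τ c (fun r => 2 * γ (i + j) r) * Thc τ d (fun r => 2 * γ (i - j) r)) := by
    intro i j c d
    have h1 := hR g ℂ (Idx g) (fun i c => ψ (T i c)) (c + d) d i j
    have h2 := ht2 (c + d) d (fun r => 2 * γ i r) (fun r => 2 * γ j r)
    rw [ch_add_self] at h1 h2
    have h3 : ∀ b : Ch g, RG (fun i c => ψ (T i c)) (c + d) b i j =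
        ψ s * ω i * ω j * (Vab τ (c + d) b (fun r => 2 * γ i r) *
          Vab τ (c + d) b (fun r => 2 * γ j r)) := by
      intro b
      have h4 : RG (fun i c => ψ (T i c)) (c + d) b i j = ψ (RG T (c + d) b i j) := by
        unfold RG
        rw [map_sum]
        refine Finset.sum_congr rfl fun a _ => ?_
        rw [map_mul, map_mul, map_intCast]
      rw [h4, Q.rie, map_mul, map_mul, hωx, hωx]
      ring
    have h5 : ∑ b : Ch g, (sgn b c : ℂ) * RG (fun i c => ψ (T i c)) (c + d) b i j =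
        ψ s * ω i * ω j * ∑ b : Ch g, (sgn b c : ℂ) * (Vab τ (c + d) b (fun r => 2 * γ i r) *
          Vab τ (c + d) b (fun r => 2 * γ j r)) := by
      rw [Finset.mul_sum]
      refine Finset.sum_congr rfl fun b _ => ?_
      rw [h3]
      ring
    rw [h1, h2] at h5
    have h6 : (fun r => 2 * γ i r + 2 * γ j r) = fun r => 2 * γ (i + j) r := by
      funext r
      rw [A.add]
      ring
    have h7 : (fun r => 2 * γ i r - 2 * γ j r) = fun r => 2 * γ (i - j) r := by
      funext r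
      rw [hsub]
      ring
    rw [h6, h7] at h5
    have h8 : (2 : ℂ) ^ g ≠ 0 := pow_ne_zero _ two_ne_zero
    apply mul_left_cancel₀ h8
    rw [h5]
    ring
  -- the scalars `ρ`
  have hρ : ∀ i, ∃ ρ : ℂ, ρ ≠ 0 ∧ ∀ c, ψ (T i c) = ρ * Thc τ c (fun r => 2 * γ i r) := by
    intro i
    obtain ⟨d, hd⟩ := Function.ne_iff.1 (Q.T0 i)
    rw [Pi.zero_apply] at hd
    have hd' : ψ (T i d) ≠ 0 := (map_ne_zero_iff ψ hψ).2 hd
    have h1 : ∀ c, ψ (T i c) =
        (ψ s * ω i * ω 0 * Thc τ d (fun r => 2 * γ i r) / ψ (T i d)) *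
          Thc τ c (fun r => 2 * γ i r) := by
      intro c
      have h2 := hstar i 0 c d
      rw [add_zero, sub_zero] at h2
      rw [div_mul_eq_mul_div, eq_div_iff hd', h2]
      ring
    refine ⟨_, ?_, h1⟩
    intro h0
    have h3 := h1 d
    rw [h0, zero_mul] at h3
    exact hd' h3
  choose ρ hρ0 hρT using hρ
  have hrel : ∀ i j, ρ (i + j) * ρ (i - j) = ψ s * ω i * ω j := by
    intro i j
    obtain ⟨c, hc⟩ := Function.ne_iff.1 (Q.T0 (i + j))
    obtain ⟨d, hd⟩ := Function.ne_iff.1 (Q.T0 (i - j))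
    rw [Pi.zero_apply] at hc hd
    have hc' : ψ (T (i + j) c) ≠ 0 := (map_ne_zero_iff ψ hψ).2 hc
    have hd' : ψ (T (i - j) d) ≠ 0 := (map_ne_zero_iff ψ hψ).2 hd
    have h1 := hstar i j c d
    rw [hρT (i + j) c] at hc' h1
    rw [hρT (i - j) d] at hd' h1
    have h2 : Thc τ c (fun r => 2 * γ (i + j) r) ≠ 0 := right_ne_zero_of_mul hc'
    have h3 : Thc τ d (fun r => 2 * γ (i - j) r) ≠ 0 := right_ne_zero_of_mul hd'
    apply mul_right_cancel₀ (mul_ne_zero h2 h3)
    rw [← h1]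
    ring
  refine ⟨ρ, hρ0, hρT, ?_⟩
  intro i j
  have h1 := hrel i j
  have h2 := hrel i 0
  have h3 := hrel j 0
  have h4 := hrel 0 0
  rw [add_zero, sub_zero] at h2 h3 h4
  rw [h1, pow_two, pow_two, pow_two, h2, h3, h4]
  ring

end Pool.Agent.ARC.H21
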